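import Pool.Agent.Run7.h11.AX.WG

set_option autoImplicit false

open MeasureTheory Set Filter Topology
open scoped ENNReal ContDiff FourierTransform

namespace Run7.h11.AX

open Pool.Agent.Run7.h148.AX

lemma wk_zero (ξ : E3) : wk 0 ξ = 1 := by
  unfold wk
  simp

lemma lint_ge (k : ℕ) (g : E3 → ℝ≥0∞) : (∫⁻ ξ, g ξ) ≤ ∫⁻ ξ, wk k ξ * g ξ := by
  apply lintegral_mono
  intro ξ
  calc g ξ = 1 * g ξ := (one_mul _).symm
    _ ≤ wk k ξ * g ξ := mul_le_mul' (wk_ge k ξ) le_rfl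

theorem t_PER (hCRT : S_CRT) (h1 : S_WG1) (h2 : S_WG2) (h3 : S_WG3) (hI : S_ITM)
    (_ : S_CVM) : S_PER := by
  intro κ K η H f h hκ hK hη hHc hH0 hHK hf hh hhH hfη hsmall
  obtain ⟨hfm, hfT⟩ := hf
  obtain ⟨hhm, hhT⟩ := hh
  have hit := hI.2 κ f h hfm hhm
  have hcrt : ∀ T, 0 ≤ T → ∀ n,
      (∀ t ∈ Icc 0 T, (∫⁻ ξ, iw ξ * itm κ f h n t ξ)
        ≤ ENNReal.ofReal (4 * η * Real.exp (25600 / κ * K))) ∧
      ENNReal.ofReal κ * (∫⁻ t in Ioc 0 T, ∫⁻ ξ, nw ξ * itm κ f h n t ξ)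
        ≤ ENNReal.ofReal (4 * η * Real.exp (25600 / κ * K)) := by
    intro T hT
    exact hCRT κ K T η H f h hκ hK hT hη hHc hH0 (hHK T hT) hfm hhm (fun t ht => hhH t ht.1)
      (le_trans (lintegral_mono_set Ioc_subset_Ioi_self) hfη) hsmall
  have h4 : 4 * η * Real.exp (25600 / κ * K) ≤ κ / 6400 := by linarith
  have b1 : ∀ T : ℝ, ∃ M : NNReal, ∀ n, ∀ t ∈ Icc 0 T, (∫⁻ ξ, itm κ f h n t ξ) ≤ M := by
    intro T
    by_cases hT : 0 ≤ T
    · obtain ⟨Bf, hBf⟩ := hfT 0 T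
      obtain ⟨Bh, hBh⟩ := hhT 0 T
      refine h1 κ T (max Bf Bh) f h hκ hT hfm hhm (fun t ht => ⟨?_, ?_⟩)
        (fun n => ((hcrt T hT n).2).trans (ENNReal.ofReal_le_ofReal h4))
      · refine ((lint_ge 0 _).trans (hBf t ht).1).trans ?_
        exact_mod_cast le_max_left Bf Bh
      · refine ((lint_ge 0 _).trans (hBh t ht).1).trans ?_
        exact_mod_cast le_max_right Bf Bh
    · exact ⟨0, fun n t ht => absurd (ht.1.trans ht.2) hT⟩
  have b2 : ∀ (k : ℕ) (T : ℝ), ∃ M : NNReal, ∀ n, ∀ t ∈ Icc 0 T,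
      (∫⁻ ξ, wk k ξ * itm κ f h n t ξ) ≤ M := by
    intro k T
    by_cases hT : 0 ≤ T
    · obtain ⟨Bf, hBf⟩ := hfT k T
      obtain ⟨Bh, hBh⟩ := hhT k T
      obtain ⟨B1, hB1⟩ := b1 T
      refine h2 κ T k (max (max Bf Bh) B1) f h hκ hT hfm hhm (fun t ht => ⟨?_, ?_⟩)
        (fun n t ht => (hB1 n t ht).trans ?_)
      · refine (hBf t ht).1.trans ?_
        exact_mod_cast (le_max_left Bf Bh).trans (le_max_left _ _)
      · refine (hBh t ht).1.trans ?_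
        exact_mod_cast (le_max_right Bf Bh).trans (le_max_left _ _)
      · exact_mod_cast le_max_right _ _
    · exact ⟨0, fun n t ht => absurd (ht.1.trans ht.2) hT⟩
  have b3 : ∀ (k : ℕ) (T : ℝ), ∃ M : NNReal, ∀ n, ∀ t ∈ Icc 0 T, ∀ ξ,
      wk k ξ * itm κ f h n t ξ ≤ M := by
    intro k T
    by_cases hT : 0 ≤ T
    · obtain ⟨Bf, hBf⟩ := hfT k T
      obtain ⟨Bh, hBh⟩ := hhT k T
      obtain ⟨B1, hB1⟩ := b1 T
      refine h3 κ T k (max (max Bf Bh) B1) f h hκ hT hfm hhm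
        (fun t ht => ⟨fun ξ => ?_, fun ξ => ?_, ?_⟩)
        (fun n t ht => (hB1 n t ht).trans ?_)
      · refine ((hBf t ht).2 ξ).trans ?_
        exact_mod_cast (le_max_left Bf Bh).trans (le_max_left _ _)
      · refine ((hBh t ht).2 ξ).trans ?_
        exact_mod_cast (le_max_right Bf Bh).trans (le_max_left _ _)
      · refine ((lint_ge k _).trans (hBh t ht).1).trans ?_
        exact_mod_cast (le_max_right Bf Bh).trans (le_max_left _ _)
      · exact_mod_cast le_max_right _ _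
    · exact ⟨0, fun n t ht => absurd (ht.1.trans ht.2) hT⟩
  have hmono : ∀ t ξ, Monotone fun n => itm κ f h n t ξ := fun t ξ =>
    monotone_nat_of_le_succ fun n => (hit n).2 t ξ
  refine ⟨?_, ⟨?_, ?_⟩, ?_⟩
  · intro T
    obtain ⟨M1, hM1⟩ := b1 T
    obtain ⟨M2, hM2⟩ := b3 0 T
    obtain ⟨Bf, hBf⟩ := hfT 0 T
    obtain ⟨Bh, hBh⟩ := hhT 0 T
    refine ⟨M1 + M2 + Bf + Bh, fun t ht => ⟨fun n => ?_, fun n ξ => ?_, ?_, fun ξ => ?_,
      fun ξ => ?_⟩⟩
    · refine (hM1 n t ht).trans ?_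
      exact_mod_cast (by rw [add_assoc, add_assoc]; exact le_self_add : M1 ≤ M1 + M2 + Bf + Bh)
    · have h5 := hM2 n t ht ξ
      rw [wk_zero, one_mul] at h5
      refine h5.trans ?_
      exact_mod_cast (by
        rw [add_comm M1, add_assoc, add_assoc]; exact le_self_add : M2 ≤ M1 + M2 + Bf + Bh)
    · refine ((lint_ge 0 _).trans (hBh t ht).1).trans ?_
      exact_mod_cast (le_add_self : Bh ≤ M1 + M2 + Bf + Bh)
    · have h5 := (hBh t ht).2 ξ
      rw [wk_zero, one_mul] at h5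
      refine h5.trans ?_
      exact_mod_cast (le_add_self : Bh ≤ M1 + M2 + Bf + Bh)
    · have h5 := (hBf t ht).2 ξ
      rw [wk_zero, one_mul] at h5
      refine h5.trans ?_
      exact_mod_cast (by
        rw [add_right_comm]; exact le_add_self : Bf ≤ M1 + M2 + Bf + Bh)
  · have h5 : Function.uncurry (fun t ξ => ⨆ n, itm κ f h n t ξ) =
        fun q => ⨆ n, Function.uncurry (itm κ f h n) q := by
      funext q
      rfl
    rw [h5]
    exact Measurable.iSup fun n => (hit n).1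
  · intro k T
    obtain ⟨M1, hM1⟩ := b2 k T
    obtain ⟨M2, hM2⟩ := b3 k T
    refine ⟨M1 + M2, fun t ht => ⟨?_, fun ξ => ?_⟩⟩
    · have h6 : (∫⁻ ξ, wk k ξ * ⨆ n, itm κ f h n t ξ) =
          ⨆ n, ∫⁻ ξ, wk k ξ * itm κ f h n t ξ := by
        simp only [ENNReal.mul_iSup]
        exact lintegral_iSup (fun n => (wk_meas k).mul ((hit n).1.of_uncurry_left))
          (fun n m hnm ξ => mul_le_mul' le_rfl (hmono t ξ hnm))
      rw [h6]
      refine iSup_le fun n => (hM1 n t ht).trans ?_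
      exact_mod_cast (le_self_add : M1 ≤ M1 + M2)
    · show wk k ξ * (⨆ n, itm κ f h n t ξ) ≤ _
      rw [ENNReal.mul_iSup]
      refine iSup_le fun n => (hM2 n t ht ξ).trans ?_
      exact_mod_cast (le_add_self : M2 ≤ M1 + M2)
  · intro t ht
    have hiw : Measurable iw := by
      unfold iw
      exact (by fun_prop : Measurable fun ξ : E3 => ‖ξ‖⁻¹).ennreal_ofReal
    have h6 : (∫⁻ ξ, iw ξ * ⨆ n, itm κ f h n t ξ) =
        ⨆ n, ∫⁻ ξ, iw ξ * itm κ f h n t ξ := by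
      simp only [ENNReal.mul_iSup]
      exact lintegral_iSup (fun n => hiw.mul ((hit n).1.of_uncurry_left))
        (fun n m hnm ξ => mul_le_mul' le_rfl (hmono t ξ hnm))
    rw [h6]
    exact iSup_le fun n => (hcrt t ht n).1 t ⟨ht, le_rfl⟩

end Run7.h11.AX
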