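import Pool.Agent.Run7.h148.AX.Stm1

set_option autoImplicit false

open MeasureTheory Set Filter Topology
open scoped ENNReal ContDiff FourierTransform

namespace Run7.h11.AX

open Pool.Agent.Run7.h148.AX

/-- complex conjugation of vectors -/
noncomputable def cj : C3 ≃L[ℝ] C3 := starL' ℝ

lemma cj_apply (v : C3) (k : Fin 3) : cj v k = (starRingEnd ℂ) (v k) := rfl

lemma herm_iff (a : E3 → C3) : Herm a ↔ ∀ ξ, a (-ξ) = cj (a ξ) :=
  ⟨fun h ξ => funext fun k => h ξ k, fun h ξ k => congrFun (h ξ) k⟩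

lemma dt_smul (ξ : E3) (c : ℂ) (v : C3) : dt ξ (c • v) = c * dt ξ v := by
  simp only [dt, Fin.sum_univ_three, Pi.smul_apply, smul_eq_mul]
  ring

lemma dt_add (ξ : E3) (v w : C3) : dt ξ (v + w) = dt ξ v + dt ξ w := by
  simp only [dt, Fin.sum_univ_three, Pi.add_apply]
  ring

lemma dt_neg (ξ : E3) (v : C3) : dt (-ξ) v = - dt ξ v := by
  simp only [dt, Fin.sum_univ_three, PiLp.neg_apply, Complex.ofReal_neg]
  ring

lemma dt_cj (ξ : E3) (v : C3) : dt ξ (cj v) = (starRingEnd ℂ) (dt ξ v) := by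
  simp only [dt, Fin.sum_univ_three, cj_apply, map_add, map_mul, Complex.conj_ofReal]

lemma lp_apply (ξ : E3) (v : C3) (k : Fin 3) :
    lp ξ v k = v k - (ξ k : ℂ) * dt ξ v / ((‖ξ‖ ^ 2 : ℝ) : ℂ) := rfl

lemma lp_neg (ξ : E3) (v : C3) : lp (-ξ) v = lp ξ v := by
  funext k
  simp only [lp_apply, dt_neg, norm_neg, PiLp.neg_apply, Complex.ofReal_neg]
  ring

lemma lp_smul (ξ : E3) (c : ℂ) (v : C3) : lp ξ (c • v) = c • lp ξ v := by
  funext k
  simp only [lp_apply, dt_smul, Pi.smul_apply, smul_eq_mul]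
  ring

lemma lp_cj (ξ : E3) (v : C3) : lp ξ (cj v) = cj (lp ξ v) := by
  funext k
  simp only [lp_apply, dt_cj, cj_apply, map_sub, map_mul, map_div₀, Complex.conj_ofReal]

lemma cj_smul (c : ℂ) (v : C3) : cj (c • v) = (starRingEnd ℂ) c • cj v := by
  funext k
  simp only [cj_apply, Pi.smul_apply, smul_eq_mul, map_mul]

lemma nl_herm (a b : E3 → C3) (ha : Herm a) (hb : Herm b) : Herm (nl a b) := by
  rw [herm_iff] at ha hb ⊢
  intro ξ
  have h1 : ∫ η, dt (-ξ) (a (-ξ - η)) • b η = -cj (∫ η, dt ξ (a (ξ - η)) • b η) := by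
    rw [← integral_neg_eq_self, ← ContinuousLinearEquiv.integral_comp_comm, ← integral_neg]
    congr 1
    funext η
    rw [show -ξ - -η = -(ξ - η) by abel, ha, hb, dt_neg, dt_cj, cj_smul, neg_smul]
  unfold nl
  rw [h1, lp_neg, ← neg_one_smul ℂ (cj _), lp_smul, lp_cj, cj_smul, smul_smul]
  congr 1
  simp only [map_neg, map_mul, Complex.conj_I, Complex.conj_ofReal]
  rw [show (starRingEnd ℂ) 2 = 2 from map_ofNat (starRingEnd ℂ) 2]
  ring

lemma norm_sq3 (ξ : E3) : ‖ξ‖ ^ 2 = ξ 0 ^ 2 + ξ 1 ^ 2 + ξ 2 ^ 2 := by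
  rw [EuclideanSpace.norm_sq_eq, Fin.sum_univ_three]
  simp

lemma dt_lp (ξ : E3) (v : C3) : dt ξ (lp ξ v) = 0 := by
  by_cases h : ξ = 0
  · subst h
    simp [dt]
  · have hn : ((‖ξ‖ ^ 2 : ℝ) : ℂ) ≠ 0 := by
      rw [Complex.ofReal_ne_zero]
      positivity
    have h3 : ((‖ξ‖ ^ 2 : ℝ) : ℂ) = (ξ 0 : ℂ) ^ 2 + (ξ 1 : ℂ) ^ 2 + (ξ 2 : ℂ) ^ 2 := by
      rw [norm_sq3]
      push_cast
      ring
    have h5 : (ξ 0 : ℂ) * v 0 + (ξ 1 : ℂ) * v 1 + (ξ 2 : ℂ) * v 2 = dt ξ v := by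
      simp [dt, Fin.sum_univ_three]
    have h4 : dt ξ (lp ξ v) = dt ξ v -
        ((ξ 0 : ℂ) ^ 2 + (ξ 1 : ℂ) ^ 2 + (ξ 2 : ℂ) ^ 2) * dt ξ v / ((‖ξ‖ ^ 2 : ℝ) : ℂ) := by
      have h6 : dt ξ (lp ξ v) = (ξ 0 : ℂ) * lp ξ v 0 + (ξ 1 : ℂ) * lp ξ v 1 +
          (ξ 2 : ℂ) * lp ξ v 2 := by
        simp [dt, Fin.sum_univ_three]
      rw [h6, lp_apply, lp_apply, lp_apply]
      linear_combination h5
    rw [h4, ← h3, mul_div_cancel_left₀ _ hn, sub_self]

lemma nl_dvf (a b : E3 → C3) : Dvf (nl a b) := by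
  intro ξ
  unfold nl
  rw [dt_smul, dt_lp, mul_zero]

/-! ### rotations -/

lemma rt_0 (θ : ℝ) (x : E3) : rt θ x 0 = Real.cos θ * x 0 - Real.sin θ * x 1 := by simp [rt]
lemma rt_1 (θ : ℝ) (x : E3) : rt θ x 1 = Real.sin θ * x 0 + Real.cos θ * x 1 := by simp [rt]
lemma rt_2 (θ : ℝ) (x : E3) : rt θ x 2 = x 2 := by simp [rt]
lemma rc_0 (θ : ℝ) (v : C3) : rc θ v 0 = (Real.cos θ : ℂ) * v 0 - (Real.sin θ : ℂ) * v 1 := rfl
lemma rc_1 (θ : ℝ) (v : C3) : rc θ v 1 = (Real.sin θ : ℂ) * v 0 + (Real.cos θ : ℂ) * v 1 := rfl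
lemma rc_2 (θ : ℝ) (v : C3) : rc θ v 2 = v 2 := rfl

lemma cs1 (θ : ℝ) : Real.cos θ * Real.cos θ + Real.sin θ * Real.sin θ = 1 := by
  have := Real.cos_sq_add_sin_sq θ
  linarith

lemma ccs1 (θ : ℝ) :
    (Real.cos θ : ℂ) * (Real.cos θ : ℂ) + (Real.sin θ : ℂ) * (Real.sin θ : ℂ) = 1 := by
  exact_mod_cast cs1 θ

lemma rt_inv (θ : ℝ) (x : E3) : rt (-θ) (rt θ x) = x := by
  ext i
  fin_cases i
  · show rt (-θ) (rt θ x) 0 = x 0
    rw [rt_0, rt_0, rt_1, Real.cos_neg, Real.sin_neg]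
    linear_combination x 0 * cs1 θ
  · show rt (-θ) (rt θ x) 1 = x 1
    rw [rt_1, rt_0, rt_1, Real.cos_neg, Real.sin_neg]
    linear_combination x 1 * cs1 θ
  · show rt (-θ) (rt θ x) 2 = x 2
    rw [rt_2, rt_2]

lemma rc_inv (θ : ℝ) (v : C3) : rc (-θ) (rc θ v) = v := by
  funext i
  fin_cases i
  · show rc (-θ) (rc θ v) 0 = v 0
    rw [rc_0, rc_0, rc_1, Real.cos_neg, Real.sin_neg, Complex.ofReal_neg]
    linear_combination v 0 * ccs1 θ
  · show rc (-θ) (rc θ v) 1 = v 1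
    rw [rc_1, rc_0, rc_1, Real.cos_neg, Real.sin_neg, Complex.ofReal_neg]
    linear_combination v 1 * ccs1 θ
  · show rc (-θ) (rc θ v) 2 = v 2
    rw [rc_2, rc_2]

lemma rt_add (θ : ℝ) (x y : E3) : rt θ (x + y) = rt θ x + rt θ y := by
  ext i
  fin_cases i
  · show rt θ (x + y) 0 = rt θ x 0 + rt θ y 0
    rw [rt_0, rt_0, rt_0, PiLp.add_apply, PiLp.add_apply]
    ring
  · show rt θ (x + y) 1 = rt θ x 1 + rt θ y 1
    rw [rt_1, rt_1, rt_1, PiLp.add_apply, PiLp.add_apply]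
    ring
  · show rt θ (x + y) 2 = rt θ x 2 + rt θ y 2
    rw [rt_2, rt_2, rt_2, PiLp.add_apply]

lemma rt_smul (θ c : ℝ) (x : E3) : rt θ (c • x) = c • rt θ x := by
  ext i
  fin_cases i
  · show rt θ (c • x) 0 = c * rt θ x 0
    rw [rt_0, rt_0, PiLp.smul_apply, PiLp.smul_apply, smul_eq_mul, smul_eq_mul]
    ring
  · show rt θ (c • x) 1 = c * rt θ x 1
    rw [rt_1, rt_1, PiLp.smul_apply, PiLp.smul_apply, smul_eq_mul, smul_eq_mul]
    ring
  · show rt θ (c • x) 2 = c * rt θ x 2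
    rw [rt_2, rt_2, PiLp.smul_apply, smul_eq_mul]

lemma rt_norm (θ : ℝ) (x : E3) : ‖rt θ x‖ = ‖x‖ := by
  have h : ‖rt θ x‖ ^ 2 = ‖x‖ ^ 2 := by
    rw [norm_sq3, norm_sq3, rt_0, rt_1, rt_2]
    linear_combination (x 0 ^ 2 + x 1 ^ 2) * cs1 θ
  exact (pow_left_inj₀ (norm_nonneg _) (norm_nonneg _) two_ne_zero).1 h

/-- the rotation as a linear isometry -/
noncomputable def rtE (θ : ℝ) : E3 ≃ₗᵢ[ℝ] E3 where
  toFun := rt θ
  invFun := rt (-θ)
  map_add' := rt_add θ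
  map_smul' := rt_smul θ
  left_inv := rt_inv θ
  right_inv x := by
    have h := rt_inv (-θ) x
    rwa [neg_neg] at h
  norm_map' := rt_norm θ

/-- the rotation of complex vectors as a linear equivalence -/
noncomputable def rcE (θ : ℝ) : C3 ≃L[ℂ] C3 :=
  LinearEquiv.toContinuousLinearEquiv
    { toFun := rc θ
      invFun := rc (-θ)
      map_add' := fun v w => by
        funext i
        fin_cases i
        · show rc θ (v + w) 0 = rc θ v 0 + rc θ w 0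
          simp only [rc_0, Pi.add_apply]
          ring
        · show rc θ (v + w) 1 = rc θ v 1 + rc θ w 1
          simp only [rc_1, Pi.add_apply]
          ring
        · rfl
      map_smul' := fun c v => by
        funext i
        fin_cases i
        · show rc θ (c • v) 0 = c * rc θ v 0
          simp only [rc_0, Pi.smul_apply, smul_eq_mul]
          ring
        · show rc θ (c • v) 1 = c * rc θ v 1
          simp only [rc_1, Pi.smul_apply, smul_eq_mul]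
          ring
        · rfl
      left_inv := rc_inv θ
      right_inv := fun v => by
        have h := rc_inv (-θ) v
        rwa [neg_neg] at h }

lemma rcE_apply (θ : ℝ) (v : C3) : rcE θ v = rc θ v := rfl

lemma rc_smul (θ : ℝ) (c : ℂ) (v : C3) : rc θ (c • v) = c • rc θ v := (rcE θ).map_smul c v
lemma rc_add (θ : ℝ) (v w : C3) : rc θ (v + w) = rc θ v + rc θ w := (rcE θ).map_add v w

lemma dt_rt (θ : ℝ) (ξ : E3) (v : C3) : dt (rt θ ξ) (rc θ v) = dt ξ v := by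
  simp only [dt, Fin.sum_univ_three, rt_0, rt_1, rt_2, rc_0, rc_1, rc_2]
  push_cast
  have h := ccs1 θ
  push_cast at h
  linear_combination ((ξ 0 : ℂ) * v 0 + (ξ 1 : ℂ) * v 1) * h

lemma lp_rt (θ : ℝ) (ξ : E3) (v : C3) : lp (rt θ ξ) (rc θ v) = rc θ (lp ξ v) := by
  funext i
  fin_cases i
  · show lp (rt θ ξ) (rc θ v) 0 = rc θ (lp ξ v) 0
    rw [rc_0]
    simp only [lp_apply, dt_rt, rt_norm, rt_0, rc_0]
    push_cast
    ring
  · show lp (rt θ ξ) (rc θ v) 1 = rc θ (lp ξ v) 1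
    rw [rc_1]
    simp only [lp_apply, dt_rt, rt_norm, rt_1, rc_1]
    push_cast
    ring
  · show lp (rt θ ξ) (rc θ v) 2 = rc θ (lp ξ v) 2
    rw [rc_2]
    simp only [lp_apply, dt_rt, rt_norm, rt_2, rc_2]

lemma integral_rt (θ : ℝ) (F : E3 → C3) : ∫ η, F η = ∫ η, F (rt θ η) := by
  have h := (rtE θ).measurePreserving.integral_comp
    (rtE θ).toHomeomorph.measurableEmbedding F
  exact h.symm

lemma nl_rot (a b : E3 → C3) (ha : Rot a) (hb : Rot b) : Rot (nl a b) := by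
  intro θ ξ
  have h1 : ∫ η, dt (rt θ ξ) (a (rt θ ξ - η)) • b η = rc θ (∫ η, dt ξ (a (ξ - η)) • b η) := by
    rw [integral_rt θ, ← rcE_apply, ← ContinuousLinearEquiv.integral_comp_comm]
    congr 1
    funext η
    have h2 : rt θ ξ - rt θ η = rt θ (ξ - η) := ((rtE θ).map_sub ξ η).symm
    rw [h2, ha, hb, dt_rt, rcE_apply, rc_smul]
  unfold nl
  rw [h1, lp_rt, rc_smul]

theorem t_SY1 : S_SY1 := ⟨nl_herm, nl_rot, nl_dvf⟩

lemma ht_rt (κ : ℝ) (θ : ℝ) (ξ : E3) (t : ℝ) : ht κ (rt θ ξ) t = ht κ ξ t := by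
  unfold ht
  rw [rt_norm]

lemma ht_neg (κ : ℝ) (ξ : E3) (t : ℝ) : ht κ (-ξ) t = ht κ ξ t := by
  unfold ht
  rw [norm_neg]

/-- `dt ξ` as a continuous linear map -/
noncomputable def dtL (ξ : E3) : C3 →L[ℝ] ℂ :=
  LinearMap.toContinuousLinearMap
    { toFun := dt ξ
      map_add' := dt_add ξ
      map_smul' := fun c v => by
        simp only [dt, Fin.sum_univ_three, Pi.smul_apply, Complex.real_smul, RingHom.id_apply]
        ring }

lemma dtL_apply (ξ : E3) (v : C3) : dtL ξ v = dt ξ v := rfl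

theorem t_SY2 (hS : S_SY1) : S_SY2 := by
  obtain ⟨h1, h2, h3⟩ := hS
  intro κ F g hF hg n
  induction n with
  | zero =>
    intro t
    refine ⟨fun ξ k => ?_, fun θ ξ => ?_, fun ξ => ?_⟩
    · show (0 : ℂ) = (starRingEnd ℂ) 0
      simp
    · show (0 : C3) = rc θ 0
      exact ((rcE θ).map_zero).symm
    · show dt ξ 0 = 0
      exact (dtL ξ).map_zero
  | succ n ih =>
    intro t
    obtain ⟨v, hv⟩ : ∃ v, v = itv κ F g n := ⟨_, rfl⟩
    have hstep : itv κ F g (n + 1) t = stp κ F g v t := by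
      rw [hv]
      rfl
    rw [← hv] at ih
    rw [hstep]
    refine ⟨?_, ?_, ?_⟩
    · rw [herm_iff]
      intro ξ
      unfold stp
      rw [← ContinuousLinearEquiv.integral_comp_comm]
      congr 1
      funext s
      have e1 := (herm_iff _).1 (hF s).1 ξ
      have e2 := (herm_iff _).1 (h1 _ _ (hg s).1 (ih s).1) ξ
      have e3 := (herm_iff _).1 (h1 _ _ (ih s).1 (hg s).1) ξ
      have e4 := (herm_iff _).1 (h1 _ _ (ih s).1 (ih s).1) ξ
      rw [e1, e2, e3, e4, ht_neg, map_smul, map_add, map_add, map_add]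
    · intro θ ξ
      unfold stp
      rw [← rcE_apply, ← ContinuousLinearEquiv.integral_comp_comm]
      congr 1
      funext s
      have e1 := (hF s).2.1 θ ξ
      have e2 := h2 _ _ (hg s).2.1 (ih s).2.1 θ ξ
      have e3 := h2 _ _ (ih s).2.1 (hg s).2.1 θ ξ
      have e4 := h2 _ _ (ih s).2.1 (ih s).2.1 θ ξ
      rw [e1, e2, e3, e4, ht_rt, rcE_apply, ← Complex.coe_smul, ← Complex.coe_smul, rc_smul,
        rc_add, rc_add, rc_add]
    · intro ξ
      unfold stp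
      by_cases hi : Integrable (fun s => ht κ ξ (t - s) •
          (F s ξ + nl (g s) (v s) ξ + nl (v s) (g s) ξ + nl (v s) (v s) ξ))
          (volume.restrict (Ioc 0 t))
      · rw [← dtL_apply, ← ContinuousLinearMap.integral_comp_comm _ hi]
        have e0 : ∀ s, dtL ξ (ht κ ξ (t - s) •
          (F s ξ + nl (g s) (v s) ξ + nl (v s) (g s) ξ + nl (v s) (v s) ξ)) = 0 := by
          intro s
          rw [map_smul, map_add, map_add, map_add]
          simp only [dtL_apply]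
          rw [(hF s).2.2 ξ, h3 _ _ ξ, h3 _ _ ξ, h3 _ _ ξ]
          simp
        simp only [e0, integral_zero]
      · rw [integral_undef hi, ← dtL_apply, map_zero]

end Run7.h11.AX
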