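import Pool.Agent.Run7.h148.AX.Stm1

set_option autoImplicit false

open MeasureTheory Set Filter Topology
open scoped ENNReal ContDiff FourierTransform

namespace Run7.h11.AX

open Pool.Agent.Run7.h148.AX

lemma ht_le_one (κ : ℝ) (hκ : 0 < κ) (ξ : E3) (r : ℝ) (hr : 0 ≤ r) : ht κ ξ r ≤ 1 := by
  unfold ht
  rw [Real.exp_le_one_iff, neg_nonpos]
  positivity

lemma ht_nonneg (κ : ℝ) (ξ : E3) (r : ℝ) : 0 ≤ ht κ ξ r := (Real.exp_pos _).le

lemma nw_ht (κ : ℝ) (hκ : 0 < κ) (ξ : E3) (r : ℝ) (hr : 0 < r) :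
    ‖ξ‖ * ht κ ξ r ≤ κ ^ (-(1 / 2) : ℝ) * r ^ (-(1 / 2) : ℝ) := by
  have h0 : 0 < κ * r := mul_pos hκ hr
  rw [← Real.mul_rpow hκ.le hr.le, Real.rpow_neg h0.le, ← Real.sqrt_eq_rpow]
  have hs : 0 < Real.sqrt (κ * r) := Real.sqrt_pos.2 h0
  have hss : Real.sqrt (κ * r) * Real.sqrt (κ * r) = κ * r := Real.mul_self_sqrt h0.le
  rw [← one_div, le_div_iff₀ hs]
  obtain ⟨x, hx⟩ : ∃ x, x = Real.sqrt (κ * r) * ‖ξ‖ := ⟨_, rfl⟩
  have hx2 : κ * ‖ξ‖ ^ 2 * r = x ^ 2 := by
    rw [hx, mul_pow, sq (Real.sqrt _), hss]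
    ring
  have h1 : ht κ ξ r ≤ (1 + x ^ 2)⁻¹ := by
    unfold ht
    rw [hx2, Real.exp_neg]
    apply inv_anti₀ (by positivity)
    rw [add_comm]
    exact Real.add_one_le_exp _
  have h2 : 0 ≤ x := by
    rw [hx]
    positivity
  calc ‖ξ‖ * ht κ ξ r * Real.sqrt (κ * r) = x * ht κ ξ r := by
        rw [hx]
        ring
    _ ≤ x * (1 + x ^ 2)⁻¹ := mul_le_mul_of_nonneg_left h1 h2
    _ ≤ 1 := by
        rw [← div_eq_mul_inv, div_le_one (by positivity)]
        nlinarith [sq_nonneg (x - 1)]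

/-- time weight -/
noncomputable def ws (r : ℝ) : ℝ≥0∞ := ENNReal.ofReal (r ^ (-(1 / 2) : ℝ))

lemma meas_ws (t : ℝ) : Measurable fun s => ws (t - s) := by
  unfold ws
  exact (by fun_prop : Measurable fun s : ℝ => (t - s) ^ (-(1 / 2) : ℝ)).ennreal_ofReal

lemma ws_int (t : ℝ) (ht : 0 ≤ t) : ∫⁻ s in Ioc 0 t, ws (t - s) ≤ ENNReal.ofReal (2 * (1 + t)) := by
  have hi : IntervalIntegrable (fun s : ℝ => (t - s) ^ (-(1 / 2) : ℝ)) volume 0 t := by
    have h := (intervalIntegral.intervalIntegrable_rpow' (a := t) (b := 0)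
      (r := (-(1 / 2) : ℝ)) (by norm_num)).comp_sub_left t
    simpa using h
  unfold ws
  rw [← ofReal_integral_eq_lintegral_ofReal hi.1]
  · apply ENNReal.ofReal_le_ofReal
    rw [← intervalIntegral.integral_of_le ht,
      intervalIntegral.integral_comp_sub_left (fun x : ℝ => x ^ (-(1 / 2) : ℝ)),
      sub_self, sub_zero, integral_rpow (Or.inl (by norm_num))]
    have e1 : (-(1 / 2) : ℝ) + 1 = 1 / 2 := by norm_num
    rw [e1, Real.zero_rpow (by norm_num), ← Real.sqrt_eq_rpow]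
    have h1 : Real.sqrt t ≤ 1 + t := by
      rw [Real.sqrt_le_left (by linarith)]
      nlinarith
    linarith
  · filter_upwards [ae_restrict_mem measurableSet_Ioc] with s hs
    exact Real.rpow_nonneg (by linarith [hs.2]) _

/-- majorant of the weighted norms -/
noncomputable def AA (B c : NNReal) : ℕ → ℝ → ℝ≥0∞
  | 0 => fun _ => 0
  | n + 1 => fun t => ∫⁻ s in Ioc 0 t, (B + c * ws (t - s) * (2 * B ^ 2 + 4 * B * AA B c n s))

lemma AA_meas (B c : NNReal) (n : ℕ) : Measurable (AA B c n) := by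
  induction n with
  | zero => exact measurable_const
  | succ n ih =>
    have h1 : AA B c (n + 1) = fun t => ∫⁻ s, (Ioc 0 t).indicator
        (fun s => (B + c * ws (t - s) * (2 * B ^ 2 + 4 * B * AA B c n s))) s := by
      funext t
      rw [lintegral_indicator measurableSet_Ioc]
      rfl
    rw [h1]
    apply Measurable.lintegral_prod_right' (f := fun q : ℝ × ℝ => (Ioc 0 q.1).indicator
        (fun s => (B + c * ws (q.1 - s) * (2 * B ^ 2 + 4 * B * AA B c n s))) q.2)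
    have h2 : (fun q : ℝ × ℝ => (Ioc 0 q.1).indicator
        (fun s => (B + c * ws (q.1 - s) * (2 * B ^ 2 + 4 * B * AA B c n s))) q.2) =
        {q : ℝ × ℝ | 0 < q.2 ∧ q.2 ≤ q.1}.indicator
        (fun q => (B + c * ws (q.1 - q.2) * (2 * B ^ 2 + 4 * B * AA B c n q.2))) := by
      funext q
      simp only [Set.indicator, mem_Ioc, mem_setOf_eq]
    rw [h2]
    apply Measurable.indicator
    · have h3 : Measurable fun q : ℝ × ℝ => ws (q.1 - q.2) := by
        unfold ws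
        exact (by fun_prop : Measurable fun q : ℝ × ℝ =>
          (q.1 - q.2) ^ (-(1 / 2) : ℝ)).ennreal_ofReal
      have h4 : Measurable fun q : ℝ × ℝ => AA B c n q.2 := ih.comp measurable_snd
      exact measurable_const.add ((h3.const_mul _).mul (measurable_const.add (h4.const_mul _)))
    · exact (measurableSet_lt measurable_const measurable_snd).inter
        (measurableSet_le measurable_snd measurable_fst)

lemma AA_bdd (hG : S_GRO) (B c : NNReal) (T : ℝ) :
    ∃ M : NNReal, ∀ n, ∀ t ∈ Icc 0 T, AA B c n t ≤ M := by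
  obtain ⟨M, hM⟩ := hG (c * (4 * B)) (B * T.toNNReal +
    c * (2 * B ^ 2) * (2 * (1 + T.toNNReal))) T
  refine ⟨M, hM (AA B c) (fun _ _ => 0) (AA_meas B c) (fun _ => measurable_const) (by simp)
    (fun t => rfl) ?_⟩
  intro n t ht
  have hAm := AA_meas B c n
  have hw := meas_ws t
  have hT : t ≤ T := ht.2
  have h1 : AA B c (n + 1) t = ∫⁻ s in Ioc 0 t, ((B + c * (2 * B ^ 2) * ws (t - s)) +
      (c * (4 * B)) * ws (t - s) * AA B c n s) := by
    show ∫⁻ s in Ioc 0 t, _ = _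
    apply lintegral_congr
    intro s
    ring
  have hm1 : Measurable fun s => (B : ℝ≥0∞) + c * (2 * B ^ 2) * ws (t - s) :=
    measurable_const.add (hw.const_mul _)
  rw [h1, lintegral_add_left hm1, lintegral_add_left measurable_const, lintegral_const_mul _ hw,
    lintegral_const, Measure.restrict_apply_univ, Real.volume_Ioc, sub_zero]
  have h2 : ENNReal.ofReal t ≤ ((T.toNNReal : NNReal) : ℝ≥0∞) := by
    rw [ENNReal.ofReal]
    exact_mod_cast Real.toNNReal_le_toNNReal hT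
  have h3 : ∫⁻ s in Ioc 0 t, ws (t - s) ≤ 2 * (1 + ((T.toNNReal : NNReal) : ℝ≥0∞)) := by
    refine (ws_int t ht.1).trans ?_
    rw [ENNReal.ofReal_mul (by norm_num), ENNReal.ofReal_add (by norm_num) ht.1]
    simp only [ENNReal.ofReal_ofNat, ENNReal.ofReal_one]
    gcongr
  have h4 : ∫⁻ s in Ioc 0 t, (c * (4 * B) : ℝ≥0∞) * ws (t - s) * AA B c n s =
      ∫⁻ s in Ioc 0 t, (((c * (4 * B) : NNReal) : ℝ≥0∞) *
        ENNReal.ofReal ((t - s) ^ (-(1 / 2) : ℝ)) + 0) * AA B c n s := by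
    apply lintegral_congr
    intro s
    rw [add_zero]
    push_cast
    rfl
  rw [h4]
  apply add_le_add _ le_rfl
  push_cast
  gcongr

lemma wk_ge (k : ℕ) (ξ : E3) : 1 ≤ wk k ξ := by
  unfold wk
  rw [ENNReal.one_le_ofReal]
  exact one_le_pow₀ (by linarith [norm_nonneg ξ])

lemma wk_ne (k : ℕ) (ξ : E3) : wk k ξ ≠ ⊤ := ENNReal.ofReal_ne_top

lemma wk_meas (k : ℕ) : Measurable (wk k) := by
  unfold wk
  exact (by fun_prop : Measurable fun ξ : E3 => (1 + ‖ξ‖) ^ k).ennreal_ofReal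

lemma nw_meas : Measurable nw := by
  unfold nw
  exact (by fun_prop : Measurable fun ξ : E3 => ‖ξ‖).ennreal_ofReal

lemma src_bd (κ : ℝ) (hκ : 0 < κ) (k : ℕ) (f h m : ℝ → E3 → ℝ≥0∞) (t s : ℝ) (hs : s < t)
    (ξ : E3) : wk k ξ * (ENNReal.ofReal (ht κ ξ (t - s)) * src f h m s ξ) ≤
      wk k ξ * f s ξ + 40 * ENNReal.ofReal (κ ^ (-(1 / 2) : ℝ)) * ws (t - s) *
        (wk k ξ * cv (h s) (m s) ξ + wk k ξ * cv (m s) (h s) ξ + wk k ξ * cv (m s) (m s) ξ) := by
  have h1 : ENNReal.ofReal (ht κ ξ (t - s)) ≤ 1 := by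
    rw [← ENNReal.ofReal_one]
    exact ENNReal.ofReal_le_ofReal (ht_le_one κ hκ ξ _ (by linarith))
  have h2 : nw ξ * ENNReal.ofReal (ht κ ξ (t - s)) ≤
      ENNReal.ofReal (κ ^ (-(1 / 2) : ℝ)) * ws (t - s) := by
    unfold nw ws
    rw [← ENNReal.ofReal_mul (norm_nonneg _), ← ENNReal.ofReal_mul (Real.rpow_nonneg hκ.le _)]
    exact ENNReal.ofReal_le_ofReal (nw_ht κ hκ ξ _ (by linarith))
  unfold src
  calc wk k ξ * (ENNReal.ofReal (ht κ ξ (t - s)) * (f s ξ + 40 * nw ξ *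
        (cv (h s) (m s) ξ + cv (m s) (h s) ξ + cv (m s) (m s) ξ)))
      = ENNReal.ofReal (ht κ ξ (t - s)) * (wk k ξ * f s ξ) +
        40 * (nw ξ * ENNReal.ofReal (ht κ ξ (t - s))) *
        (wk k ξ * cv (h s) (m s) ξ + wk k ξ * cv (m s) (h s) ξ + wk k ξ * cv (m s) (m s) ξ) := by
        ring
    _ ≤ 1 * (wk k ξ * f s ξ) + 40 * (ENNReal.ofReal (κ ^ (-(1 / 2) : ℝ)) * ws (t - s)) *
        (wk k ξ * cv (h s) (m s) ξ + wk k ξ * cv (m s) (h s) ξ + wk k ξ * cv (m s) (m s) ξ) := by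
        gcongr
    _ = _ := by
        rw [one_mul]
        ring

lemma comb (k : ℕ) (B A Ih Im Wh Wm Z1 Z2 Z3 K W : ℝ≥0∞) (h1 : Ih ≤ B) (h2 : Im ≤ B) (h3 : Wh ≤ B)
    (h4 : Wm ≤ A) (z1 : Z1 ≤ 2 ^ k * (Wh * Im + Ih * Wm)) (z2 : Z2 ≤ 2 ^ k * (Wm * Ih + Im * Wh))
    (z3 : Z3 ≤ 2 ^ k * (Wm * Im + Im * Wm)) :
    40 * K * W * (Z1 + Z2 + Z3) ≤ 40 * 2 ^ k * K * W * (2 * B ^ 2 + 4 * B * A) := by
  calc 40 * K * W * (Z1 + Z2 + Z3) ≤ 40 * K * W * (2 ^ k * (B * B + B * A) +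
        2 ^ k * (A * B + B * B) + 2 ^ k * (A * B + B * A)) := by
        gcongr
        · refine z1.trans ?_
          gcongr
        · refine z2.trans ?_
          gcongr
        · refine z3.trans ?_
          gcongr
    _ = _ := by ring

theorem t_WG3 (hC : S_CVM) (hI : S_ITM) (hW : S_WK1) (hG : S_GRO) : S_WG3 := by
  intro κ T k B f h hκ hT hf hh hb hB
  obtain ⟨c, hc⟩ : ∃ c : NNReal, c = 40 * 2 ^ k * (κ ^ (-(1 / 2) : ℝ)).toNNReal := ⟨_, rfl⟩
  obtain ⟨M, hM⟩ := AA_bdd hG B c T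
  have key : ∀ n, ∀ t ∈ Icc 0 T, ∀ ξ, wk k ξ * itm κ f h n t ξ ≤ AA B c n t := by
    intro n
    induction n with
    | zero =>
      intro t _ ξ
      show wk k ξ * 0 ≤ 0
      simp
    | succ n ih =>
      intro t htT ξ
      have hm := ((hI.2 κ f h hf hh) n).1
      show wk k ξ * (∫⁻ s in Ioc 0 t, ENNReal.ofReal (ht κ ξ (t - s)) *
        src f h (itm κ f h n) s ξ) ≤ ∫⁻ s in Ioc 0 t, _
      rw [← lintegral_const_mul' _ _ (wk_ne k ξ)]
      apply lintegral_mono_ae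
      filter_upwards [ae_restrict_mem measurableSet_Ioc,
        ae_restrict_of_ae (compl_mem_ae_iff.2 (measure_singleton t : volume {t} = 0))] with s hs hst
      have hst' : s < t := lt_of_le_of_ne hs.2 hst
      have hsT : s ∈ Icc 0 T := ⟨hs.1.le, hs.2.trans htT.2⟩
      have hms : Measurable (itm κ f h n s) := hm.of_uncurry_left
      have hhs : Measurable (h s) := hh.of_uncurry_left
      obtain ⟨b1, b2, b3⟩ := hb s hsT
      have e1 := (hW _ _ hhs hms).2.1 k _ _ b2 (ih s hsT) ξ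
      have e2 := (hW _ _ hms hhs).2.1 k _ _ (ih s hsT) b2 ξ
      have e3 := (hW _ _ hms hms).2.1 k _ _ (ih s hsT) (ih s hsT) ξ
      refine (src_bd κ hκ k f h (itm κ f h n) t s hst' ξ).trans ?_
      refine add_le_add (b1 ξ) ?_
      refine (comb k B (AA B c n s) _ _ _ _ _ _ _ _ _ b3 (hB n s hsT) le_rfl le_rfl
        e1 e2 e3).trans (le_of_eq ?_)
      rw [hc, ENNReal.ofReal]
      push_cast
      ring
  exact ⟨M, fun n t ht ξ => (key n t ht ξ).trans (hM n t ht)⟩

lemma src_meas (hC : S_CVM) (f h m : ℝ → E3 → ℝ≥0∞) (hf : Measurable (Function.uncurry f))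
    (hh : Measurable (Function.uncurry h)) (hm : Measurable (Function.uncurry m)) :
    Measurable fun p : ℝ × E3 => src f h m p.1 p.2 := by
  have h1 := hC.2.2 h m hh hm
  have h2 := hC.2.2 m h hm hh
  have h3 := hC.2.2 m m hm hm
  have h4 : Measurable fun p : ℝ × E3 => nw p.2 := nw_meas.comp measurable_snd
  have h5 : Measurable fun p : ℝ × E3 => f p.1 p.2 := hf
  unfold src
  exact h5.add ((h4.const_mul 40).mul ((h1.add h2).add h3))

theorem t_WG2 (hC : S_CVM) (hI : S_ITM) (hW : S_WK1) (hG : S_GRO) : S_WG2 := by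
  intro κ T k B f h hκ hT hf hh hb hB
  obtain ⟨c, hc⟩ : ∃ c : NNReal, c = 40 * 2 ^ k * (κ ^ (-(1 / 2) : ℝ)).toNNReal := ⟨_, rfl⟩
  obtain ⟨M, hM⟩ := AA_bdd hG B c T
  have key : ∀ n, ∀ t ∈ Icc 0 T, (∫⁻ ξ, wk k ξ * itm κ f h n t ξ) ≤ AA B c n t := by
    intro n
    induction n with
    | zero =>
      intro t _
      show (∫⁻ ξ, wk k ξ * 0) ≤ 0
      simp
    | succ n ih =>
      intro t htT
      have hm := ((hI.2 κ f h hf hh) n).1
      have h1 : (∫⁻ ξ, wk k ξ * itm κ f h (n + 1) t ξ) = ∫⁻ ξ, ∫⁻ s in Ioc 0 t,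
          wk k ξ * (ENNReal.ofReal (ht κ ξ (t - s)) * src f h (itm κ f h n) s ξ) := by
        apply lintegral_congr
        intro ξ
        rw [lintegral_const_mul' _ _ (wk_ne k ξ)]
        rfl
      have hsm := src_meas hC f h _ hf hh hm
      have hJ : Measurable fun p : E3 × ℝ =>
          wk k p.1 * (ENNReal.ofReal (ht κ p.1 (t - p.2)) * src f h (itm κ f h n) p.2 p.1) := by
        have a1 : Measurable fun p : E3 × ℝ => wk k p.1 := (wk_meas k).comp measurable_fst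
        have a2 : Measurable fun p : E3 × ℝ => ENNReal.ofReal (ht κ p.1 (t - p.2)) := by
          unfold ht
          exact (by fun_prop : Measurable fun p : E3 × ℝ =>
            Real.exp (-(κ * ‖p.1‖ ^ 2 * (t - p.2)))).ennreal_ofReal
        have a3 : Measurable fun p : E3 × ℝ => src f h (itm κ f h n) p.2 p.1 :=
          hsm.comp measurable_swap
        exact a1.mul (a2.mul a3)
      rw [h1, lintegral_lintegral_swap hJ.aemeasurable]
      show _ ≤ ∫⁻ s in Ioc 0 t, _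
      apply lintegral_mono_ae
      filter_upwards [ae_restrict_mem measurableSet_Ioc,
        ae_restrict_of_ae (compl_mem_ae_iff.2 (measure_singleton t : volume {t} = 0))] with s hs hst
      have hst' : s < t := lt_of_le_of_ne hs.2 hst
      have hsT : s ∈ Icc 0 T := ⟨hs.1.le, hs.2.trans htT.2⟩
      have hms : Measurable (itm κ f h n s) := hm.of_uncurry_left
      have hhs : Measurable (h s) := hh.of_uncurry_left
      have hfs : Measurable (f s) := hf.of_uncurry_left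
      obtain ⟨b1, b2⟩ := hb s hsT
      have b3 : ∫⁻ ξ, h s ξ ≤ B := by
        refine le_trans (lintegral_mono fun ξ => ?_) b2
        calc h s ξ = 1 * h s ξ := (one_mul _).symm
          _ ≤ wk k ξ * h s ξ := mul_le_mul' (wk_ge k ξ) le_rfl
      have e1 := (hW _ _ hhs hms).1 k
      have e2 := (hW _ _ hms hhs).1 k
      have e3 := (hW _ _ hms hms).1 k
      have hwk := wk_meas k
      have m1 : Measurable fun ξ => wk k ξ * cv (h s) (itm κ f h n s) ξ :=
        hwk.mul (hC.1 _ _ hhs hms).1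
      have m2 : Measurable fun ξ => wk k ξ * cv (itm κ f h n s) (h s) ξ :=
        hwk.mul (hC.1 _ _ hms hhs).1
      have m3 : Measurable fun ξ => wk k ξ * cv (itm κ f h n s) (itm κ f h n s) ξ :=
        hwk.mul (hC.1 _ _ hms hms).1
      have m12 : Measurable fun ξ => wk k ξ * cv (h s) (itm κ f h n s) ξ +
        wk k ξ * cv (itm κ f h n s) (h s) ξ := m1.add m2
      have m123 : Measurable fun ξ => wk k ξ * cv (h s) (itm κ f h n s) ξ +
        wk k ξ * cv (itm κ f h n s) (h s) ξ +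
        wk k ξ * cv (itm κ f h n s) (itm κ f h n s) ξ := m12.add m3
      have mf : Measurable fun ξ => wk k ξ * f s ξ := hwk.mul hfs
      refine (lintegral_mono fun ξ => src_bd κ hκ k f h (itm κ f h n) t s hst' ξ).trans ?_
      rw [lintegral_add_left mf, lintegral_const_mul _ m123, lintegral_add_left m12,
        lintegral_add_left m1]
      refine add_le_add b1 ?_
      refine (comb k B (AA B c n s) _ _ _ _ _ _ _ _ _ b3 (hB n s hsT) b2 (ih s hsT)
        e1 e2 e3).trans (le_of_eq ?_)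
      rw [hc, ENNReal.ofReal]
      push_cast
      ring
  exact ⟨M, fun n t ht => (key n t ht).trans (hM n t ht)⟩

end Run7.h11.AX
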